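import Mathlib
import Pool.Agent.W5h8.FlatE

/-!
# Sizes of flat maximal antichains just below the top level (MP_7d5f0f_co)

For `l ∈ {2, 3}` (in fact for every `l ≥ 2`) every integer of form (G) in the open interval from
`T(n, l)` to `n choose (l + 1)` is the size of a maximal antichain of `B_n` all of whose members have
`l` or `l + 1` elements.

Proof.  For a graph on `N = n - l + 2` vertices in which every non-edge lies in an independent triple,
add the remaining `l - 2` points to all edges and take all `(l + 1)`-sets which contain none of these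
`l`-sets; this is a maximal antichain of size `(n choose l + 1) - (N - 3) t + W`, where `t` is the
number of edges and, in the graphs used here (which have no triangles), `W` is the number of pairs of
edges with a common vertex.  The graphs are: two stars with `a` and `b` edges and `c` common leaves,
plus a matching; the star with all `N - 1` edges; and, for the single value which would ask for a star
with `N - 2` edges, a path.
-/

set_option autoImplicit false

namespace Pool.Agent.Results.MP_7d5f0f_co.FlatSizes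

/-- `A` is a maximal antichain of the Boolean lattice `B_n` of all subsets of an `n`-element set, and
all members of `A` have `l` or `l + 1` elements. -/
def IsFlatMaximalAntichain (n l : ℕ) (A : Finset (Finset (Fin n))) : Prop :=
  IsAntichain (· ⊆ ·) (A : Set (Finset (Fin n))) ∧
    (∀ s : Finset (Fin n), s ∉ A → ∃ t ∈ A, s ⊆ t ∨ t ⊆ s) ∧
    ∀ s ∈ A, s.card = l ∨ s.card = l + 1

/-- `S(n, l)`: the set of the sizes of these antichains. -/
def S (n l : ℕ) : Set ℤ :=
  {m | ∃ A : Finset (Finset (Fin n)), IsFlatMaximalAntichain n l A ∧ (A.card : ℤ) = m}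

/-- `T(n, l) = (n choose l + 1) - (n - l - 1) ⌈(n - l) / 2⌉`. -/
noncomputable def T (n l : ℕ) : ℤ :=
  (n.choose (l + 1) : ℤ) - ((n : ℤ) - l - 1) * ⌈((n : ℚ) - l) / 2⌉

/-- `m` has form (G) for `(n, l)`. -/
def FormG (n l : ℕ) (m : ℤ) : Prop :=
  ∃ t a b c : ℕ, 1 ≤ t ∧ (t : ℤ) ≤ (n : ℤ) - l + 1 ∧ c ≤ b ∧ b ≤ a ∧ 1 ≤ a + b ∧ a + b ≤ t ∧
    m = (n.choose (l + 1) : ℤ) - ((n : ℤ) - l - 1) * t + a.choose 2 + b.choose 2 + c

theorem ceil_half (k : ℕ) : ⌈(k : ℚ) / 2⌉ = (((k + 1) / 2 : ℕ) : ℤ) := by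
  obtain ⟨q, hq⟩ : ∃ q : ℕ, q = (k + 1) / 2 := ⟨_, rfl⟩
  rw [← hq]
  have h : k = 2 * q ∨ k + 1 = 2 * q := by omega
  have h' : (k : ℚ) = 2 * (q : ℚ) ∨ (k : ℚ) + 1 = 2 * (q : ℚ) := by
    rcases h with h | h
    · left; exact_mod_cast h
    · right; exact_mod_cast h
  rw [Int.ceil_eq_iff]
  rw [Int.cast_natCast]
  constructor
  · rcases h' with h | h <;> linarith
  · rcases h' with h | h <;> linarith

/-- For every `l ≥ 2`, in particular for `l = 2` and `l = 3`, and every `n` with `l ≤ ⌈n / 2⌉`: every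
integer `m` of form (G) with `T(n, l) < m < (n choose l + 1)` lies in `S(n, l)`. -/
theorem result (n l : ℕ) (hl : 2 ≤ l) (hln : (l : ℤ) ≤ ⌈(n : ℚ) / 2⌉) (m : ℤ) (hG : FormG n l m)
    (hT : T n l < m) (hC : m < (n.choose (l + 1) : ℤ)) : m ∈ S n l := by
  obtain ⟨t, a, b, c, -, ht2, hcb, hba, hab1, hab2, hm⟩ := hG
  rw [ceil_half] at hln
  have hln' : l ≤ (n + 1) / 2 := by exact_mod_cast hln
  have h1 : ((n : ℚ) - l) / 2 = ((n - l : ℕ) : ℚ) / 2 := by
    rw [Nat.cast_sub (by omega)]
  unfold T at hT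
  rw [h1, ceil_half] at hT
  obtain ⟨A, h2, h3, h4, h5⟩ := Pool.Agent.W5h8.Flat.main n l hl hln' t a b c (by omega) hba hcb
    hab1 hab2 m hm hT hC
  exact ⟨A, ⟨h2, h3, h4⟩, h5⟩

end Pool.Agent.Results.MP_7d5f0f_co.FlatSizes
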